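import Mathlib
import Pool.Agent.TH429.J231
import Pool.Agent.Helper88.SE.P_sg_prob
import Pool.Agent.Helper88.SE.P_rot_mp

set_option autoImplicit false

open MeasureTheory Set Filter Topology
open scoped ENNReal Real

namespace Pool.Agent.R522.HN

open Pool.Agent.Helper88.SE

/-- the zonal law on the six dimensional sphere, for nonnegative measurable functions -/
theorem zon_l (h : ℝ → ℝ≥0∞) (hh : Measurable h) :
    ∫⁻ x : S 6, h ((x : E 6) 0) ∂(sg 6) =
      (∫⁻ z in Icc (-1 : ℝ) 1, ENNReal.ofReal (Real.sqrt (1 - z ^ 2) ^ 4))⁻¹ *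
      ∫⁻ z in Icc (-1 : ℝ) 1, ENNReal.ofReal (Real.sqrt (1 - z ^ 2) ^ 4) * h z := by
  set p : S 6 := ⟨EuclideanSpace.single 0 1, by simp⟩ with hp
  have hin : ∀ x : S 6, inner ℝ (p : E 6) (x : E 6) = (x : E 6) 0 := by
    intro x
    simp [hp, EuclideanSpace.inner_single_left]
  have h1 := Pool.Agent.TH331.RZ.zonal_main 4 p h hh
  have h2 := Pool.Agent.TH331.RZ.zonal_main 4 p (fun _ => 1) measurable_const
  simp only [hin] at h1 h2
  rw [lintegral_one] at h2
  simp only [mul_one] at h2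
  unfold sg
  rw [lintegral_smul_measure, h1, h2, smul_eq_mul]
  set M := (volume : Measure (E (4 + 1))).toSphere univ with hM
  have hM0 : M ≠ 0 := by
    rw [hM, ne_eq, Measure.measure_univ_eq_zero]
    exact Measure.toSphere_ne_zero _
  have hMt : M ≠ ∞ := measure_ne_top _ _
  rw [ENNReal.mul_inv (Or.inl hM0) (Or.inl hMt)]
  calc M⁻¹ * (∫⁻ z in Icc (-1 : ℝ) 1, ENNReal.ofReal (Real.sqrt (1 - z ^ 2) ^ 4))⁻¹ *
        (M * ∫⁻ z in Icc (-1 : ℝ) 1, ENNReal.ofReal (Real.sqrt (1 - z ^ 2) ^ 4) * h z)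
      = (M⁻¹ * M) * ((∫⁻ z in Icc (-1 : ℝ) 1, ENNReal.ofReal (Real.sqrt (1 - z ^ 2) ^ 4))⁻¹ *
        ∫⁻ z in Icc (-1 : ℝ) 1, ENNReal.ofReal (Real.sqrt (1 - z ^ 2) ^ 4) * h z) := by ring
    _ = _ := by rw [ENNReal.inv_mul_cancel hM0 hMt, one_mul]

theorem dens_l (g : ℝ → ℝ) (hg : Continuous g) (h0 : ∀ z, 0 ≤ g z) :
    ∫⁻ z in Icc (-1 : ℝ) 1, ENNReal.ofReal (Real.sqrt (1 - z ^ 2) ^ 4) * ENNReal.ofReal (g z) =
      ENNReal.ofReal (∫ z in (-1 : ℝ)..1, (1 - z ^ 2) ^ 2 * g z) := by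
  have e1 : ∫⁻ z in Icc (-1 : ℝ) 1, ENNReal.ofReal (Real.sqrt (1 - z ^ 2) ^ 4) * ENNReal.ofReal (g z) =
      ∫⁻ z in Icc (-1 : ℝ) 1, ENNReal.ofReal ((1 - z ^ 2) ^ 2 * g z) := by
    refine setLIntegral_congr_fun measurableSet_Icc fun z hz => ?_
    have hz' : 0 ≤ 1 - z ^ 2 := by nlinarith [hz.1, hz.2]
    rw [← ENNReal.ofReal_mul (by positivity)]
    congr 2
    have : Real.sqrt (1 - z ^ 2) ^ 4 = (Real.sqrt (1 - z ^ 2) ^ 2) ^ 2 := by ring
    rw [this, Real.sq_sqrt hz']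
  rw [e1, ← ofReal_integral_eq_lintegral_ofReal]
  · rw [intervalIntegral.integral_of_le (by norm_num), integral_Icc_eq_integral_Ioc]
  · exact (Continuous.integrableOn_Icc (by fun_prop))
  · exact Eventually.of_forall fun z => mul_nonneg (by positivity) (h0 z)

/-- the zonal law on the six dimensional sphere -/
theorem zon (h : ℝ → ℝ) (hc : Continuous h) (h0 : ∀ z, 0 ≤ h z) :
    ∫ x : S 6, h ((x : E 6) 0) ∂(sg 6) = 15 / 16 * ∫ z in (-1 : ℝ)..1, (1 - z ^ 2) ^ 2 * h z := by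
  have hcont : Continuous fun x : S 6 => h ((x : E 6) 0) := by fun_prop
  rw [integral_eq_lintegral_of_nonneg_ae (Eventually.of_forall fun x => h0 _)
    hcont.aestronglyMeasurable]
  rw [zon_l (fun z => ENNReal.ofReal (h z)) (by fun_prop), dens_l h hc h0]
  have h1 := dens_l (fun _ => 1) continuous_const (fun _ => zero_le_one)
  simp only [ENNReal.ofReal_one, mul_one] at h1
  rw [h1]
  have h2 : ∫ z in (-1 : ℝ)..1, (1 - z ^ 2) ^ 2 = 16 / 15 := by
    have e : (fun z : ℝ => (1 - z ^ 2) ^ 2) = fun z => 1 - 2 * z ^ 2 + z ^ 4 := by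
      funext z; ring
    have ii : ∀ f : ℝ → ℝ, Continuous f → IntervalIntegrable f volume (-1) 1 :=
      fun f hf => hf.intervalIntegrable _ _
    rw [e, intervalIntegral.integral_add (ii _ (by fun_prop)) (ii _ (by fun_prop)),
      intervalIntegral.integral_sub (ii _ (by fun_prop)) (ii _ (by fun_prop))]
    simp only [intervalIntegral.integral_const_mul, integral_pow]
    norm_num
  rw [h2, ENNReal.toReal_mul, ENNReal.toReal_inv, ENNReal.toReal_ofReal (by norm_num),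
    ENNReal.toReal_ofReal]
  · norm_num
  · apply intervalIntegral.integral_nonneg (by norm_num)
    intro z _
    exact mul_nonneg (by positivity) (h0 z)

end Pool.Agent.R522.HN
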