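import Mathlib
import Pool.Agent.R522.HN.Zon

set_option autoImplicit false

open MeasureTheory Set Filter Topology
open scoped ENNReal Real

namespace Pool.Agent.R522.HN

open Pool.Agent.Helper88.SE

instance : IsProbabilityMeasure (sg 6) := sg_prob 6

theorem rot_int (g : Iso 6) (f : S 6 → ℝ) (hf : Continuous f) :
    ∫ x, f (rot g x) ∂(sg 6) = ∫ x, f x ∂(sg 6) := by
  have h := rot_mp 6 g
  conv_rhs => rw [← h.map_eq]
  rw [integral_map h.measurable.aemeasurable hf.aestronglyMeasurable]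

/-- change of the sign of one coordinate -/
noncomputable def flip (i : Fin (6 + 1)) : Iso 6 :=
  LinearIsometryEquiv.piLpCongrRight 2
    (fun j => if j = i then LinearIsometryEquiv.neg ℝ else LinearIsometryEquiv.refl ℝ ℝ)

theorem flip_apply (i j : Fin (6 + 1)) (x : S 6) :
    ((rot (flip i) x : S 6) : E 6) j = if j = i then - (x : E 6) j else (x : E 6) j := by
  show flip i (x : E 6) j = _
  unfold flip
  simp only [LinearIsometryEquiv.piLpCongrRight_apply]
  split_ifs <;> simp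

/-- permutation of the coordinates -/
noncomputable def perm (w : Equiv.Perm (Fin (6 + 1))) : Iso 6 :=
  LinearIsometryEquiv.piLpCongrLeft 2 ℝ ℝ w

theorem perm_apply (w : Equiv.Perm (Fin (6 + 1))) (j : Fin (6 + 1)) (x : S 6) :
    ((rot (perm w) x : S 6) : E 6) j = (x : E 6) (w.symm j) := by
  show perm w (x : E 6) j = _
  unfold perm
  simp [LinearIsometryEquiv.piLpCongrLeft_apply]

/-- the norm of `B x` as a function of the first coordinate -/
noncomputable def rh (s z : ℝ) : ℝ := Real.sqrt (s ^ 2 + (1 - s ^ 2) * z ^ 2)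

theorem rh_arg_pos {s : ℝ} (h0 : 0 < s) (h1 : s < 1) (z : ℝ) : 0 < s ^ 2 + (1 - s ^ 2) * z ^ 2 := by
  have : 0 < 1 - s ^ 2 := by nlinarith
  positivity

theorem rh_pos {s : ℝ} (h0 : 0 < s) (h1 : s < 1) (z : ℝ) : 0 < rh s z :=
  Real.sqrt_pos.2 (rh_arg_pos h0 h1 z)

theorem rh_cont (s : ℝ) : Continuous (rh s) := by
  unfold rh
  fun_prop

theorem coord_cont (i : Fin (6 + 1)) : Continuous fun x : S 6 => (x : E 6) i := by fun_prop

theorem f_cont {s : ℝ} (h0 : 0 < s) (h1 : s < 1) (i j : Fin (6 + 1)) :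
    Continuous fun x : S 6 => (x : E 6) i * (x : E 6) j / rh s ((x : E 6) 0) :=
  ((coord_cont i).mul (coord_cont j)).div ((rh_cont s).comp (coord_cont 0))
    (fun x => (rh_pos h0 h1 _).ne')

/-- the second moments -/
noncomputable def q (s : ℝ) (i j : Fin (6 + 1)) : ℝ :=
  ∫ x : S 6, (x : E 6) i * (x : E 6) j / rh s ((x : E 6) 0) ∂(sg 6)

theorem q_off {s : ℝ} (h0 : 0 < s) (h1 : s < 1) {i j : Fin (6 + 1)} (hij : i ≠ j) : q s i j = 0 := by
  have h := rot_int (flip i) _ (f_cont h0 h1 i j)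
  have h2 : ∀ x : S 6, ((rot (flip i) x : S 6) : E 6) i * ((rot (flip i) x : S 6) : E 6) j /
      rh s (((rot (flip i) x : S 6) : E 6) 0) =
      - ((x : E 6) i * (x : E 6) j / rh s ((x : E 6) 0)) := by
    intro x
    have h3 : rh s (((rot (flip i) x : S 6) : E 6) 0) = rh s ((x : E 6) 0) := by
      rw [flip_apply]
      split_ifs
      · unfold rh
        rw [neg_sq]
      · rfl
    rw [h3, flip_apply, flip_apply, if_pos rfl, if_neg (Ne.symm hij)]
    ring
  simp only [h2] at h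
  rw [integral_neg] at h
  have h4 : q s i j = ∫ x : S 6, (x : E 6) i * (x : E 6) j / rh s ((x : E 6) 0) ∂(sg 6) := rfl
  rw [← h4] at h
  linarith

theorem q_perm {s : ℝ} (h0 : 0 < s) (h1 : s < 1) {i : Fin (6 + 1)} (hi : i ≠ 0) :
    q s i i = q s 1 1 := by
  have h := rot_int (perm (Equiv.swap 1 i)) _ (f_cont h0 h1 i i)
  have e1 : (Equiv.swap (1 : Fin (6 + 1)) i).symm i = 1 := by
    rw [Equiv.symm_swap, Equiv.swap_apply_right]
  have e2 : (Equiv.swap (1 : Fin (6 + 1)) i).symm 0 = 0 := by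
    rw [Equiv.symm_swap, Equiv.swap_apply_of_ne_of_ne (by decide) (Ne.symm hi)]
  simp only [perm_apply, e1, e2] at h
  unfold q
  exact h.symm

theorem sum_sq (x : S 6) : ∑ i : Fin (6 + 1), ((x : E 6) i) ^ 2 = 1 := by
  have h : ‖(x : E 6)‖ = 1 := by simp
  have h2 := EuclideanSpace.norm_sq_eq (x : E 6)
  rw [h] at h2
  simp only [Real.norm_eq_abs, sq_abs] at h2
  linarith

theorem q_sum {s : ℝ} (h0 : 0 < s) (h1 : s < 1) :
    6 * q s 1 1 = ∫ x : S 6, (1 - ((x : E 6) 0) ^ 2) / rh s ((x : E 6) 0) ∂(sg 6) := by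
  have hint : ∀ i : Fin (6 + 1), Integrable
      (fun x : S 6 => (x : E 6) i * (x : E 6) i / rh s ((x : E 6) 0)) (sg 6) := fun i =>
    (f_cont h0 h1 i i).integrable_of_hasCompactSupport (HasCompactSupport.of_compactSpace _)
  have h : ∑ i : Fin 6, q s i.succ i.succ =
      ∫ x : S 6, (1 - ((x : E 6) 0) ^ 2) / rh s ((x : E 6) 0) ∂(sg 6) := by
    unfold q
    rw [← integral_finsetSum _ fun i _ => hint i.succ]
    refine integral_congr_ae (Eventually.of_forall fun x => ?_)
    simp only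
    rw [← Finset.sum_div]
    congr 1
    have := sum_sq x
    rw [Fin.sum_univ_succ] at this
    have h5 : ∑ i : Fin 6, (x : E 6) i.succ * (x : E 6) i.succ = ∑ i : Fin 6, ((x : E 6) i.succ) ^ 2 :=
      Finset.sum_congr rfl fun i _ => by ring
    rw [h5]
    linarith
  rw [← h]
  have h6 : ∀ i : Fin 6, q s i.succ i.succ = q s 1 1 := fun i => q_perm h0 h1 (Fin.succ_ne_zero i)
  simp only [h6]
  simp

end Pool.Agent.R522.HN
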