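import Mathlib
import Pool.Agent.R522.HN.Sym

set_option autoImplicit false

open MeasureTheory Set Filter Topology
open scoped ENNReal Real

namespace Pool.Agent.R522.HN

open Pool.Agent.Helper88.SE

/-- the parameter `s` -/
noncomputable def s0 : ℝ := 64 / 1025
/-- `v = (1 - s^2)^(1/2)` -/
noncomputable def v0 : ℝ := 1023 / 1025

theorem s0_pos : 0 < s0 := by norm_num [s0]
theorem s0_lt : s0 < 1 := by norm_num [s0]
theorem v0_pos : 0 < v0 := by norm_num [v0]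
theorem sv : 1 - s0 ^ 2 = v0 ^ 2 := by norm_num [s0, v0]

/-- `rh` for the parameter `s0` -/
noncomputable def r0 (z : ℝ) : ℝ := rh s0 z

theorem r0_pos (z : ℝ) : 0 < r0 z := rh_pos s0_pos s0_lt z

theorem r0_sq (z : ℝ) : r0 z ^ 2 = s0 ^ 2 + v0 ^ 2 * z ^ 2 := by
  unfold r0 rh
  rw [Real.sq_sqrt (rh_arg_pos s0_pos s0_lt z).le, sv]

theorem r0_one : r0 1 = 1 := by
  have h := r0_sq 1
  have h2 := r0_pos 1
  have : s0 ^ 2 + v0 ^ 2 = 1 := by norm_num [s0, v0]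
  nlinarith

theorem r0_neg_one : r0 (-1) = 1 := by
  have h := r0_sq (-1)
  have h2 := r0_pos (-1)
  have : s0 ^ 2 + v0 ^ 2 = 1 := by norm_num [s0, v0]
  nlinarith

theorem r0_deriv (z : ℝ) : HasDerivAt r0 (v0 ^ 2 * z / r0 z) z := by
  have h : HasDerivAt (fun z : ℝ => s0 ^ 2 + (1 - s0 ^ 2) * z ^ 2) ((1 - s0 ^ 2) * (2 * z)) z := by
    have := ((hasDerivAt_pow 2 z).const_mul (1 - s0 ^ 2)).const_add (s0 ^ 2)
    simpa using this
  have h2 := h.sqrt (rh_arg_pos s0_pos s0_lt z).ne'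
  have h3 : (1 - s0 ^ 2) * (2 * z) / (2 * Real.sqrt (s0 ^ 2 + (1 - s0 ^ 2) * z ^ 2)) =
      v0 ^ 2 * z / r0 z := by
    show _ = v0 ^ 2 * z / Real.sqrt (s0 ^ 2 + (1 - s0 ^ 2) * z ^ 2)
    rw [sv]
    have : Real.sqrt (s0 ^ 2 + v0 ^ 2 * z ^ 2) ≠ 0 := by
      have := r0_pos z
      unfold r0 rh at this
      rw [sv] at this
      exact this.ne'
    field_simp
  rw [h3] at h2
  exact h2

theorem arg_pos (z : ℝ) : 0 < v0 * z + r0 z := by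
  have h1 := r0_pos z
  have h2 := r0_sq z
  have h3 := s0_pos
  by_contra h
  have h4 : r0 z ≤ -(v0 * z) := by linarith
  have h5 : r0 z ^ 2 ≤ (v0 * z) ^ 2 := by nlinarith
  nlinarith [sq_pos_of_pos h3]

theorem log_deriv (z : ℝ) :
    HasDerivAt (fun z => Real.log (v0 * z + r0 z) / v0) (1 / r0 z) z := by
  have h1 : HasDerivAt (fun z : ℝ => v0 * z + r0 z) (v0 + v0 ^ 2 * z / r0 z) z := by
    have h := ((hasDerivAt_id z).const_mul v0).fun_add (r0_deriv z)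
    simpa using h
  have h2 := (h1.log (arg_pos z).ne').div_const v0
  have h3 : (v0 + v0 ^ 2 * z / r0 z) / (v0 * z + r0 z) / v0 = 1 / r0 z := by
    have a := (arg_pos z).ne'
    have b := (r0_pos z).ne'
    have c := v0_pos.ne'
    field_simp
    ring
  rw [h3] at h2
  exact h2

theorem r0_cont : Continuous r0 := rh_cont s0

theorem int_form (α β γ Q : ℝ) :
    ∫ z in (-1 : ℝ)..1, ((α + 3 * β * z ^ 2 + 5 * γ * z ^ 4) * (s0 ^ 2 + v0 ^ 2 * z ^ 2) +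
      (α * z + β * z ^ 3 + γ * z ^ 5) * (v0 ^ 2 * z) + Q) / r0 z =
      2 * (α + β + γ) + Q * (10 * Real.log 2) / v0 := by
  have hd : ∀ z : ℝ, HasDerivAt (fun z => (α * z + β * z ^ 3 + γ * z ^ 5) * r0 z +
      Q * (Real.log (v0 * z + r0 z) / v0))
      (((α + 3 * β * z ^ 2 + 5 * γ * z ^ 4) * (s0 ^ 2 + v0 ^ 2 * z ^ 2) +
      (α * z + β * z ^ 3 + γ * z ^ 5) * (v0 ^ 2 * z) + Q) / r0 z) z := by
    intro z
    have hp : HasDerivAt (fun z : ℝ => α * z + β * z ^ 3 + γ * z ^ 5)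
        (α + 3 * β * z ^ 2 + 5 * γ * z ^ 4) z := by
      have h1 := (((hasDerivAt_id z).const_mul α).fun_add ((hasDerivAt_pow 3 z).const_mul β)).fun_add
        ((hasDerivAt_pow 5 z).const_mul γ)
      refine h1.congr_deriv ?_
      push_cast
      ring
    have h2 := (hp.fun_mul (r0_deriv z)).fun_add ((log_deriv z).const_mul Q)
    refine h2.congr_deriv ?_
    have b := (r0_pos z).ne'
    rw [← r0_sq z]
    field_simp
  have hcont : Continuous fun z : ℝ => ((α + 3 * β * z ^ 2 + 5 * γ * z ^ 4) *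
      (s0 ^ 2 + v0 ^ 2 * z ^ 2) +
      (α * z + β * z ^ 3 + γ * z ^ 5) * (v0 ^ 2 * z) + Q) / r0 z :=
    Continuous.div (by fun_prop) r0_cont fun z => (r0_pos z).ne'
  rw [intervalIntegral.integral_eq_sub_of_hasDerivAt (fun z _ => hd z)
    (hcont.intervalIntegrable _ _)]
  rw [r0_one, r0_neg_one]
  have h1 : Real.log (v0 * 1 + 1) - Real.log (v0 * (-1) + 1) = 10 * Real.log 2 := by
    have e1 : v0 * 1 + 1 = 2048 / 1025 := by norm_num [v0]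
    have e2 : v0 * (-1) + 1 = 2 / 1025 := by norm_num [v0]
    rw [e1, e2, ← Real.log_div (by norm_num) (by norm_num)]
    have e3 : (2048 / 1025 : ℝ) / (2 / 1025) = 2 ^ 10 := by norm_num
    rw [e3, Real.log_pow]
    norm_num
  linear_combination (Q / v0) * h1

/-- first integral -/
theorem J0_eq : ∫ z in (-1 : ℝ)..1, (1 - z ^ 2) ^ 2 * (1 / r0 z) =
    2 * ((-2 - 3 * s0 ^ 2 / (4 * v0 ^ 2)) / (2 * v0 ^ 2) + 1 / (4 * v0 ^ 2)) +
      (1 - (-2 - 3 * s0 ^ 2 / (4 * v0 ^ 2)) / (2 * v0 ^ 2) * s0 ^ 2) * (10 * Real.log 2) / v0 := by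
  have h := int_form ((-2 - 3 * s0 ^ 2 / (4 * v0 ^ 2)) / (2 * v0 ^ 2)) (1 / (4 * v0 ^ 2)) 0
    (1 - (-2 - 3 * s0 ^ 2 / (4 * v0 ^ 2)) / (2 * v0 ^ 2) * s0 ^ 2)
  rw [add_zero] at h
  rw [← h]
  refine intervalIntegral.integral_congr fun z _ => ?_
  have b := (r0_pos z).ne'
  have c := v0_pos.ne'
  field_simp
  ring

/-- second integral -/
theorem J1_eq : ∃ α β γ Q : ℝ, γ = 1 / (6 * v0 ^ 2) ∧ β = (-2 - 5 * γ * s0 ^ 2) / (4 * v0 ^ 2) ∧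
    α = (1 - 3 * β * s0 ^ 2) / (2 * v0 ^ 2) ∧ Q = - (α * s0 ^ 2) ∧
    ∫ z in (-1 : ℝ)..1, (1 - z ^ 2) ^ 2 * (z * z / r0 z) =
    2 * (α + β + γ) + Q * (10 * Real.log 2) / v0 := by
  obtain ⟨γ, hγ⟩ : ∃ γ : ℝ, γ = 1 / (6 * v0 ^ 2) := ⟨_, rfl⟩
  obtain ⟨β, hβ⟩ : ∃ β : ℝ, β = (-2 - 5 * γ * s0 ^ 2) / (4 * v0 ^ 2) := ⟨_, rfl⟩
  obtain ⟨α, hα⟩ : ∃ α : ℝ, α = (1 - 3 * β * s0 ^ 2) / (2 * v0 ^ 2) := ⟨_, rfl⟩
  have c := v0_pos.ne'
  have e1 : 6 * γ * v0 ^ 2 = 1 := by rw [hγ]; field_simp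
  have e2 : 4 * β * v0 ^ 2 + 5 * γ * s0 ^ 2 = -2 := by rw [hβ]; field_simp; ring
  have e3 : 2 * α * v0 ^ 2 + 3 * β * s0 ^ 2 = 1 := by rw [hα]; field_simp; ring
  refine ⟨α, β, γ, -(α * s0 ^ 2), hγ, hβ, hα, rfl, ?_⟩
  rw [← int_form α β γ (-(α * s0 ^ 2))]
  refine intervalIntegral.integral_congr fun z _ => ?_
  have b := (r0_pos z).ne'
  rw [eq_div_iff b]
  have : (1 - z ^ 2) ^ 2 * (z * z / r0 z) * r0 z = (1 - z ^ 2) ^ 2 * z ^ 2 := by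
    field_simp
  rw [this]
  linear_combination (-z ^ 6) * e1 - z ^ 4 * e2 - z ^ 2 * e3

end Pool.Agent.R522.HN
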