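import Mathlib

set_option autoImplicit false

open MeasureTheory

/-! # Matrix norms from the sphere: definitions (MP_1d723d_an) -/

namespace Pool.Agent.R522.HN

/-- Normalised surface measure on the unit sphere of `ℝ^n`. -/
noncomputable def sph (n : ℕ) : Measure (Metric.sphere (0 : EuclideanSpace ℝ (Fin n)) 1) :=
  ((volume : Measure (EuclideanSpace ℝ (Fin n))).toSphere Set.univ)⁻¹ •
    (volume : Measure (EuclideanSpace ℝ (Fin n))).toSphere

/-- The norm `‖A‖_{H^p} = (E |A x|^p)^(1/p)`, where `x` is uniformly distributed on the sphere. -/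
noncomputable def Hn {n : ℕ} (p : ℝ) (A : Matrix (Fin n) (Fin n) ℝ) : ℝ :=
  (∫ x : Metric.sphere (0 : EuclideanSpace ℝ (Fin n)) 1,
    ‖Matrix.toEuclideanLin A (x : EuclideanSpace ℝ (Fin n))‖ ^ p ∂(sph n)) ^ (1 / p)

/-- The inner product `⟨A, B⟩ = tr(Aᵀ B) / n`. -/
noncomputable def ip {n : ℕ} (A B : Matrix (Fin n) (Fin n) ℝ) : ℝ := (A.transpose * B).trace / n

/-- The norm dual to the `H^1` norm. -/
noncomputable def Hd {n : ℕ} (A : Matrix (Fin n) (Fin n) ℝ) : ℝ :=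
  sSup {t : ℝ | ∃ B : Matrix (Fin n) (Fin n) ℝ, Hn 1 B ≤ 1 ∧ t = ip A B}

/-- The conjectured constant `c_n`. -/
noncomputable def cn (n : ℕ) : ℝ :=
  (2 : ℝ) ^ (5 / 4 : ℝ) / Real.sqrt Real.pi *
    (Real.Gamma (((n : ℝ) + 1) / 2) / Real.Gamma ((n : ℝ) / 2)) *
    (((n : ℝ) + 2) ^ (1 / 4 : ℝ) / (n : ℝ) ^ (3 / 4 : ℝ))

end Pool.Agent.R522.HN
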