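import Mathlib
import Pool.Agent.R522.HN.Defs
import Pool.Agent.R522.HN.Sym

set_option autoImplicit false

open MeasureTheory Set Filter Topology
open scoped ENNReal Real

namespace Pool.Agent.R522.HN

open Pool.Agent.Helper88.SE

/-- the diagonal of `B` -/
noncomputable def bd (s : ℝ) (i : Fin (6 + 1)) : ℝ := if i = 0 then 1 else s

/-- the matrix `A` -/
noncomputable def Am (s : ℝ) : Matrix (Fin 7) (Fin 7) ℝ :=
  Matrix.diagonal (fun i => 7 * bd s i * q s i i)

theorem lin_apply (C : Matrix (Fin 7) (Fin 7) ℝ) (x : S 6) (i : Fin 7) :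
    (Matrix.toEuclideanLin C (x : E 6)) i = ∑ j, C i j * (x : E 6) j := by
  rw [Matrix.toLpLin_apply]
  rfl

theorem norm_B {s : ℝ} (x : S 6) :
    ‖Matrix.toEuclideanLin (Matrix.diagonal (bd s) : Matrix (Fin 7) (Fin 7) ℝ) (x : E 6)‖ =
      rh s ((x : E 6) 0) := by
  rw [EuclideanSpace.norm_eq]
  unfold rh
  congr 1
  have h1 : ∀ i : Fin 7, ‖(Matrix.toEuclideanLin
      (Matrix.diagonal (bd s) : Matrix (Fin 7) (Fin 7) ℝ) (x : E 6)) i‖ ^ 2 =
      (bd s i) ^ 2 * ((x : E 6) i) ^ 2 := by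
    intro i
    rw [lin_apply, Finset.sum_eq_single i]
    · rw [Matrix.diagonal_apply_eq, Real.norm_eq_abs, sq_abs, mul_pow]
    · intro j _ hj
      rw [Matrix.diagonal_apply_ne _ (Ne.symm hj), zero_mul]
    · intro h
      exact absurd (Finset.mem_univ i) h
  rw [Finset.sum_congr rfl fun i _ => h1 i]
  have h2 := sum_sq x
  rw [Fin.sum_univ_succ] at h2 ⊢
  have h3 : ∀ i : Fin 6, (bd s i.succ) ^ 2 * ((x : E 6) i.succ) ^ 2 =
      s ^ 2 * ((x : E 6) i.succ) ^ 2 := by
    intro i
    simp [bd, Fin.succ_ne_zero]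
  rw [Finset.sum_congr rfl fun i _ => h3 i, ← Finset.mul_sum]
  have h4 : bd s 0 = 1 := by simp [bd]
  rw [h4]
  linear_combination s ^ 2 * h2

theorem ip_eq (s : ℝ) (C : Matrix (Fin 7) (Fin 7) ℝ) :
    ip (Am s) C = ∑ i : Fin 7, bd s i * C i i * q s i i := by
  unfold ip Am
  rw [Matrix.diagonal_transpose, Matrix.trace]
  simp only [Matrix.diag_apply, Matrix.diagonal_mul]
  rw [Finset.sum_div]
  refine Finset.sum_congr rfl fun i _ => ?_
  push_cast
  ring

theorem lin_cont (C : Matrix (Fin 7) (Fin 7) ℝ) :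
    Continuous fun x : S 6 => Matrix.toEuclideanLin C (x : E 6) :=
  (LinearMap.continuous_of_finiteDimensional _).comp continuous_subtype_val

theorem ip_le {s : ℝ} (h0 : 0 < s) (h1 : s < 1) (C : Matrix (Fin 7) (Fin 7) ℝ) :
    ip (Am s) C ≤ ∫ x : S 6, ‖Matrix.toEuclideanLin C (x : E 6)‖ ∂(sg 6) := by
  have hint : ∀ i j : Fin 7, Integrable
      (fun x : S 6 => bd s i * C i j * ((x : E 6) i * (x : E 6) j / rh s ((x : E 6) 0))) (sg 6) :=
    fun i j => (continuous_const.mul (f_cont h0 h1 i j)).integrable_of_hasCompactSupport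
      (HasCompactSupport.of_compactSpace _)
  have e1 : ip (Am s) C = ∑ i : Fin 7, ∑ j : Fin 7, bd s i * C i j * q s i j := by
    rw [ip_eq]
    refine Finset.sum_congr rfl fun i _ => ?_
    rw [Finset.sum_eq_single i]
    · intro j _ hj
      rw [q_off h0 h1 (Ne.symm hj), mul_zero]
    · intro h
      exact absurd (Finset.mem_univ i) h
  have e2 : ip (Am s) C = ∫ x : S 6, ∑ i : Fin 7, ∑ j : Fin 7,
      bd s i * C i j * ((x : E 6) i * (x : E 6) j / rh s ((x : E 6) 0)) ∂(sg 6) := by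
    rw [e1, integral_finsetSum _ fun i _ => integrable_finsetSum _ fun j _ => hint i j]
    refine Finset.sum_congr rfl fun i _ => ?_
    rw [integral_finsetSum _ fun j _ => hint i j]
    refine Finset.sum_congr rfl fun j _ => ?_
    rw [integral_const_mul]
    rfl
  rw [e2]
  refine integral_mono (integrable_finsetSum _ fun i _ => integrable_finsetSum _ fun j _ => hint i j)
    ((lin_cont C).norm.integrable_of_hasCompactSupport (HasCompactSupport.of_compactSpace _))
    fun x => ?_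
  have hρ := rh_pos h0 h1 ((x : E 6) 0)
  have e3 : ∑ i : Fin 7, ∑ j : Fin 7,
      bd s i * C i j * ((x : E 6) i * (x : E 6) j / rh s ((x : E 6) 0)) =
      (inner ℝ (Matrix.toEuclideanLin (Matrix.diagonal (bd s) : Matrix (Fin 7) (Fin 7) ℝ) (x : E 6))
        (Matrix.toEuclideanLin C (x : E 6)) : ℝ) / rh s ((x : E 6) 0) := by
    rw [PiLp.inner_apply, Finset.sum_div]
    refine Finset.sum_congr rfl fun i _ => ?_
    rw [lin_apply, lin_apply]
    have e4 : ∑ j, (Matrix.diagonal (bd s) : Matrix (Fin 7) (Fin 7) ℝ) i j * (x : E 6) j =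
        bd s i * (x : E 6) i := by
      rw [Finset.sum_eq_single i]
      · rw [Matrix.diagonal_apply_eq]
      · intro j _ hj
        rw [Matrix.diagonal_apply_ne _ (Ne.symm hj), zero_mul]
      · intro h
        exact absurd (Finset.mem_univ i) h
    rw [e4]
    simp only [RCLike.inner_apply, conj_trivial]
    rw [Finset.sum_mul, Finset.sum_div]
    refine Finset.sum_congr rfl fun j _ => ?_
    ring
  show ∑ i : Fin 7, ∑ j : Fin 7,
      bd s i * C i j * ((x : E 6) i * (x : E 6) j / rh s ((x : E 6) 0)) ≤ _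
  rw [e3, div_le_iff₀ hρ]
  refine (real_inner_le_norm _ _).trans ?_
  rw [norm_B, mul_comm]

end Pool.Agent.R522.HN
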