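import Mathlib
import Pool.Agent.R522.HN.Dual
import Pool.Agent.R522.HN.Calc

set_option autoImplicit false

open MeasureTheory Set Filter Topology
open scoped ENNReal Real

namespace Pool.Agent.R522.HN

open Pool.Agent.Helper88.SE

noncomputable def aa : ℝ := 7 * q s0 0 0
noncomputable def tt : ℝ := 7 * s0 * q s0 1 1

theorem q00 : q s0 0 0 = 15 / 16 * ∫ z in (-1 : ℝ)..1, (1 - z ^ 2) ^ 2 * (z * z / r0 z) := by
  have h := zon (fun z => z * z / r0 z) (Continuous.div (by fun_prop) r0_cont fun z => (r0_pos z).ne')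
    (fun z => div_nonneg (mul_self_nonneg z) (r0_pos z).le)
  exact h

theorem q11 : 6 * q s0 1 1 = 15 / 16 * ((∫ z in (-1 : ℝ)..1, (1 - z ^ 2) ^ 2 * (1 / r0 z)) -
    ∫ z in (-1 : ℝ)..1, (1 - z ^ 2) ^ 2 * (z * z / r0 z)) := by
  have h1 := zon (fun z => 1 / r0 z) (Continuous.div (by fun_prop) r0_cont fun z => (r0_pos z).ne')
    (fun z => div_nonneg zero_le_one (r0_pos z).le)
  have h2 := q00
  have i1 : Integrable (fun x : S 6 => 1 / r0 ((x : E 6) 0)) (sg 6) :=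
    (Continuous.div (by fun_prop) (r0_cont.comp (coord_cont 0)) fun x =>
      (r0_pos _).ne').integrable_of_hasCompactSupport (HasCompactSupport.of_compactSpace _)
  have i2 : Integrable (fun x : S 6 => (x : E 6) 0 * (x : E 6) 0 / r0 ((x : E 6) 0)) (sg 6) :=
    (f_cont s0_pos s0_lt 0 0).integrable_of_hasCompactSupport (HasCompactSupport.of_compactSpace _)
  rw [q_sum s0_pos s0_lt, mul_sub, ← h1, ← h2]
  have h3 : q s0 0 0 = ∫ x : S 6, (x : E 6) 0 * (x : E 6) 0 / r0 ((x : E 6) 0) ∂(sg 6) := rfl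
  rw [h3, ← integral_sub i1 i2]
  refine integral_congr_ae (Eventually.of_forall fun x => ?_)
  show (1 - ((x : E 6) 0) ^ 2) / r0 ((x : E 6) 0) = _
  ring

theorem norm_A (x : S 6) : ‖Matrix.toEuclideanLin (Am s0) (x : E 6)‖ ^ 2 =
    tt ^ 2 + (aa ^ 2 - tt ^ 2) * ((x : E 6) 0) ^ 2 := by
  rw [EuclideanSpace.norm_sq_eq]
  have h1 : ∀ i : Fin 7, ‖(Matrix.toEuclideanLin (Am s0) (x : E 6)) i‖ ^ 2 =
      (7 * bd s0 i * q s0 i i) ^ 2 * ((x : E 6) i) ^ 2 := by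
    intro i
    unfold Am
    rw [lin_apply, Finset.sum_eq_single i]
    · rw [Matrix.diagonal_apply_eq, Real.norm_eq_abs, sq_abs, mul_pow]
    · intro j _ hj
      rw [Matrix.diagonal_apply_ne _ (Ne.symm hj), zero_mul]
    · intro h
      exact absurd (Finset.mem_univ i) h
  rw [Finset.sum_congr rfl fun i _ => h1 i]
  have h2 := sum_sq x
  rw [Fin.sum_univ_succ] at h2 ⊢
  have h3 : ∀ i : Fin 6, (7 * bd s0 i.succ * q s0 i.succ i.succ) ^ 2 * ((x : E 6) i.succ) ^ 2 =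
      tt ^ 2 * ((x : E 6) i.succ) ^ 2 := by
    intro i
    rw [q_perm s0_pos s0_lt (Fin.succ_ne_zero i)]
    simp [bd, Fin.succ_ne_zero, tt]
  rw [Finset.sum_congr rfl fun i _ => h3 i, ← Finset.mul_sum]
  have h4 : (7 * bd s0 0 * q s0 0 0) = aa := by simp [bd, aa]
  rw [h4]
  linear_combination tt ^ 2 * h2

theorem int_A : ∫ x : S 6, ‖Matrix.toEuclideanLin (Am s0) (x : E 6)‖ ^ (4 : ℝ) ∂(sg 6) =
    ((aa ^ 2 + 6 * tt ^ 2) ^ 2 + 2 * (aa ^ 4 + 6 * tt ^ 4)) / 63 := by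
  have h1 : ∀ x : S 6, ‖Matrix.toEuclideanLin (Am s0) (x : E 6)‖ ^ (4 : ℝ) =
      (fun z : ℝ => (tt ^ 2 + (aa ^ 2 - tt ^ 2) * z ^ 2) ^ 2) ((x : E 6) 0) := by
    intro x
    have h2 : ‖Matrix.toEuclideanLin (Am s0) (x : E 6)‖ ^ (4 : ℝ) =
        (‖Matrix.toEuclideanLin (Am s0) (x : E 6)‖ ^ 2) ^ 2 := by
      rw [← pow_mul]
      exact_mod_cast Real.rpow_natCast _ 4
    rw [h2, norm_A]
  simp only [h1]
  rw [zon (fun z : ℝ => (tt ^ 2 + (aa ^ 2 - tt ^ 2) * z ^ 2) ^ 2) (by fun_prop)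
    (fun z => by positivity)]
  have ii : ∀ f : ℝ → ℝ, Continuous f → IntervalIntegrable f volume (-1) 1 :=
    fun f hf => hf.intervalIntegrable _ _
  have e : (fun z : ℝ => (1 - z ^ 2) ^ 2 * (tt ^ 2 + (aa ^ 2 - tt ^ 2) * z ^ 2) ^ 2) =
      fun z => tt ^ 4 + (2 * tt ^ 2 * (aa ^ 2 - tt ^ 2) - 2 * tt ^ 4) * z ^ 2 +
        ((aa ^ 2 - tt ^ 2) ^ 2 - 4 * tt ^ 2 * (aa ^ 2 - tt ^ 2) + tt ^ 4) * z ^ 4 +
        (2 * tt ^ 2 * (aa ^ 2 - tt ^ 2) - 2 * (aa ^ 2 - tt ^ 2) ^ 2) * z ^ 6 +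
        (aa ^ 2 - tt ^ 2) ^ 2 * z ^ 8 := by
    funext z; ring
  rw [e, intervalIntegral.integral_add (ii _ (by fun_prop)) (ii _ (by fun_prop)),
    intervalIntegral.integral_add (ii _ (by fun_prop)) (ii _ (by fun_prop)),
    intervalIntegral.integral_add (ii _ (by fun_prop)) (ii _ (by fun_prop)),
    intervalIntegral.integral_add (ii _ (by fun_prop)) (ii _ (by fun_prop))]
  simp only [intervalIntegral.integral_const_mul, integral_pow, intervalIntegral.integral_const,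
    smul_eq_mul]
  push_cast
  ring

theorem aa_ge : 2.13434 ≤ aa := by
  obtain ⟨α, β, γ, Q, hγ, hβ, hα, hQ, h⟩ := J1_eq
  unfold aa
  rw [q00, h]
  have hl := Real.log_two_lt_d9
  have hs : s0 = 64 / 1025 := rfl
  have hv : v0 = 1023 / 1025 := rfl
  simp only [hs, hv] at hγ hβ hα hQ ⊢
  norm_num at hγ
  rw [hγ] at hβ
  norm_num at hβ
  rw [hβ] at hα
  norm_num at hα
  rw [hα] at hQ
  norm_num at hQ
  rw [hα, hβ, hγ, hQ]
  norm_num
  linarith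

theorem tt_ge : 0.3509 ≤ tt := by
  obtain ⟨α, β, γ, Q, hγ, hβ, hα, hQ, h⟩ := J1_eq
  have h6 := q11
  rw [J0_eq, h] at h6
  have e : tt = 7 * s0 / 6 * (6 * q s0 1 1) := by unfold tt; ring
  rw [e, h6]
  have hl := Real.log_two_gt_d9
  have hs : s0 = 64 / 1025 := rfl
  have hv : v0 = 1023 / 1025 := rfl
  simp only [hs, hv] at hγ hβ hα hQ ⊢
  norm_num at hγ
  rw [hγ] at hβ
  norm_num at hβ
  rw [hβ] at hα
  norm_num at hα
  rw [hα] at hQ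
  norm_num at hQ
  rw [hα, hβ, hγ, hQ]
  norm_num
  linarith

theorem H4_ge : (1.106569 : ℝ) ≤
    ((aa ^ 2 + 6 * tt ^ 2) ^ 2 + 2 * (aa ^ 4 + 6 * tt ^ 4)) / 63 := by
  have h1 := aa_ge
  have h2 := tt_ge
  have h3 : (2.13434 : ℝ) ^ 2 ≤ aa ^ 2 := pow_le_pow_left₀ (by norm_num) h1 2
  have h4 : (0.3509 : ℝ) ^ 2 ≤ tt ^ 2 := pow_le_pow_left₀ (by norm_num) h2 2
  have h5 : (2.13434 : ℝ) ^ 4 ≤ aa ^ 4 := pow_le_pow_left₀ (by norm_num) h1 4
  have h6 : (0.3509 : ℝ) ^ 4 ≤ tt ^ 4 := pow_le_pow_left₀ (by norm_num) h2 4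
  have h7 : ((2.13434 : ℝ) ^ 2 + 6 * 0.3509 ^ 2) ^ 2 ≤ (aa ^ 2 + 6 * tt ^ 2) ^ 2 :=
    pow_le_pow_left₀ (by positivity) (by linarith) 2
  rw [le_div_iff₀ (by norm_num)]
  norm_num at h5 h6 h7 ⊢
  linarith

theorem cn_pow : cn 7 ^ 4 = 18874368 / 214375 / Real.pi ^ 4 := by
  unfold cn
  have g1 : Real.Gamma (((7 : ℕ) + 1 : ℝ) / 2) = 6 := by
    have : (((7 : ℕ) : ℝ) + 1) / 2 = ((3 : ℕ) : ℝ) + 1 := by norm_num
    rw [this, Real.Gamma_nat_eq_factorial]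
    norm_num [Nat.factorial]
  have g2 : Real.Gamma (((7 : ℕ) : ℝ) / 2) = 15 / 8 * Real.sqrt Real.pi := by
    have e1 : (((7 : ℕ) : ℝ)) / 2 = (5 / 2 : ℝ) + 1 := by norm_num
    have e2 : (5 / 2 : ℝ) = 3 / 2 + 1 := by norm_num
    have e3 : (3 / 2 : ℝ) = 1 / 2 + 1 := by norm_num
    rw [e1, Real.Gamma_add_one (by norm_num), e2, Real.Gamma_add_one (by norm_num), e3,
      Real.Gamma_add_one (by norm_num), Real.Gamma_one_half_eq]
    ring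
  rw [g1, g2]
  have hp := Real.sqrt_pos.2 Real.pi_pos
  have hp2 := Real.sq_sqrt Real.pi_pos.le
  have p1 : ((2 : ℝ) ^ (5 / 4 : ℝ)) ^ 4 = 32 := by
    rw [← Real.rpow_natCast, ← Real.rpow_mul (by norm_num)]
    norm_num
  have p2 : ((((7 : ℕ) : ℝ) + 2) ^ (1 / 4 : ℝ)) ^ 4 = 9 := by
    rw [← Real.rpow_natCast, ← Real.rpow_mul (by norm_num)]
    norm_num
  have p3 : ((((7 : ℕ) : ℝ)) ^ (3 / 4 : ℝ)) ^ 4 = 343 := by
    rw [← Real.rpow_natCast, ← Real.rpow_mul (by norm_num)]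
    norm_num
  rw [mul_pow, mul_pow, div_pow, div_pow, div_pow, p1, p2, p3]
  have p4 : Real.sqrt Real.pi ^ 4 = Real.pi ^ 2 := by
    calc Real.sqrt Real.pi ^ 4 = (Real.sqrt Real.pi ^ 2) ^ 2 := by ring
      _ = _ := by rw [hp2]
  rw [mul_pow, p4]
  have := Real.pi_pos.ne'
  field_simp
  norm_num

theorem cn_nonneg : 0 ≤ cn 7 := by
  unfold cn
  have g1 : 0 < Real.Gamma (((7 : ℕ) + 1 : ℝ) / 2) := Real.Gamma_pos_of_pos (by norm_num)
  have g2 : 0 < Real.Gamma (((7 : ℕ) : ℝ) / 2) := Real.Gamma_pos_of_pos (by norm_num)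
  positivity

theorem Hd_le : Hd (Am s0) ≤ 1 := by
  unfold Hd
  apply csSup_le
  · refine ⟨ip (Am s0) 0, 0, ?_, rfl⟩
    unfold Hn
    simp
  · rintro t ⟨B, hB, rfl⟩
    refine (ip_le s0_pos s0_lt B).trans ?_
    refine le_trans (le_of_eq ?_) hB
    unfold Hn
    simp only [Real.rpow_one, div_one]
    rfl

theorem main : Hd (Am s0) < cn 7 * Hn 4 (Am s0) := by
  refine lt_of_le_of_lt Hd_le ?_
  have h1 : Hn 4 (Am s0) ^ 4 =
      ((aa ^ 2 + 6 * tt ^ 2) ^ 2 + 2 * (aa ^ 4 + 6 * tt ^ 4)) / 63 := by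
    have h2 : Hn 4 (Am s0) = (∫ x : S 6, ‖Matrix.toEuclideanLin (Am s0) (x : E 6)‖ ^ (4 : ℝ) ∂(sg 6)) ^
        (1 / 4 : ℝ) := rfl
    rw [h2, int_A, ← Real.rpow_natCast, ← Real.rpow_mul (by positivity)]
    norm_num
  have h3 : 0 ≤ Hn 4 (Am s0) := by
    unfold Hn
    exact Real.rpow_nonneg (integral_nonneg fun x => Real.rpow_nonneg (norm_nonneg _) _) _
  have h4 : 1 < (cn 7 * Hn 4 (Am s0)) ^ 4 := by
    rw [mul_pow, h1, cn_pow]
    have h5 := H4_ge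
    have h6 : Real.pi ^ 4 < 97.4092 := by
      have h7 := Real.pi_lt_d6
      calc Real.pi ^ 4 < (3.141593 : ℝ) ^ 4 := pow_lt_pow_left₀ h7 Real.pi_pos.le (by norm_num)
        _ < _ := by norm_num
    have h7 : 0 < Real.pi ^ 4 := by positivity
    rw [div_mul_eq_mul_div, lt_div_iff₀ h7]
    nlinarith
  by_contra h
  push Not at h
  have : (cn 7 * Hn 4 (Am s0)) ^ 4 ≤ 1 := pow_le_one₀ (mul_nonneg cn_nonneg h3) h
  linarith

end Pool.Agent.R522.HN
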